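import Pool.Agent.Helper65.AH.St

set_option autoImplicit false

universe u

namespace Pool.Agent.Helper89.AH

open Pool.Agent.Helper58.RK Pool.Agent.Helper65.AH Filter Topology

private theorem part1 (P K : Set ℝ) (hP : IsClosed P) (hK : IsCompact K) (hd : Disjoint K P) :
    ((fun x => sInf (P ∩ Set.Ici x)) '' K).Finite := by
  refine hK.induction_on (p := fun s => ((fun x => sInf (P ∩ Set.Ici x)) '' s).Finite) ?_ ?_ ?_ ?_
  · simp
  · intro s t hst ht
    exact ht.subset (Set.image_mono hst)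
  · intro s t hs ht
    rw [Set.image_union]
    exact hs.union ht
  · intro x hx
    have hxP : x ∉ P := fun h => Set.disjoint_left.1 hd hx h
    have hn : Pᶜ ∈ 𝓝 x := hP.isOpen_compl.mem_nhds hxP
    obtain ⟨ε, hε, hb⟩ := Metric.mem_nhds_iff.1 hn
    refine ⟨Metric.ball x ε, mem_nhdsWithin_of_mem_nhds (Metric.ball_mem_nhds x hε), ?_⟩
    apply (Set.finite_singleton (sInf (P ∩ Set.Ici x))).subset
    rintro z ⟨y, hy, rfl⟩
    rw [Set.mem_singleton_iff]
    show sInf (P ∩ Set.Ici y) = sInf (P ∩ Set.Ici x)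
    congr 1
    rw [Real.ball_eq_Ioo] at hy hb
    have hnp : ∀ p ∈ P, ¬ (x - ε < p ∧ p < x + ε) := fun p hp h => hb h hp
    ext p
    constructor
    · rintro ⟨hp, hpy⟩
      refine ⟨hp, ?_⟩
      have h1 := hnp p hp
      have h2 : y ≤ p := hpy
      show x ≤ p
      by_contra hc
      push Not at hc
      exact h1 ⟨by linarith [hy.1], by linarith⟩
    · rintro ⟨hp, hpx⟩
      refine ⟨hp, ?_⟩
      have h1 := hnp p hp
      have h2 : x ≤ p := hpx
      show y ≤ p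
      by_contra hc
      push Not at hc
      exact h1 ⟨by linarith, by linarith [hy.2]⟩

private theorem part2 (G : Subgroup (ℝ ≃o ℝ))
    (hG : ∀ g ∈ G, ∀ x, x ∉ Set.Icc (0 : ℝ) 1 → g x = x) (c d : ℝ) (hcd : c ≤ d)
    (hf : ∀ p, (∀ g ∈ G, g p = p) → p ∉ Set.Icc c d) : ∃ h ∈ G, d < h c := by
  have hc1 : c ≤ 1 := by
    by_contra hc
    push Not at hc
    refine hf c (fun g hg => hG g hg c ?_) ⟨le_rfl, hcd⟩
    rintro ⟨_, h2⟩
    linarith
  set A : Set ℝ := {y | ∃ g ∈ G, g c = y} with hA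
  have hcA : c ∈ A := ⟨1, G.one_mem, rfl⟩
  have hbd : BddAbove A := by
    refine ⟨2, ?_⟩
    rintro y ⟨g, hg, rfl⟩
    have h1 : g 2 = 2 := hG g hg 2 (by rintro ⟨_, h2⟩; linarith)
    have h2 : g c ≤ g 2 := g.monotone (by linarith)
    rwa [h1] at h2
  have hs : ∀ g ∈ G, g (sSup A) = sSup A := by
    intro g hg
    rw [g.map_csSup' ⟨c, hcA⟩ hbd]
    congr 1
    ext y
    constructor
    · rintro ⟨z, ⟨k, hk, rfl⟩, rfl⟩
      exact ⟨g * k, G.mul_mem hg hk, rfl⟩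
    · rintro ⟨k, hk, rfl⟩
      refine ⟨(g⁻¹ * k) c, ⟨g⁻¹ * k, G.mul_mem (G.inv_mem hg) hk, rfl⟩, ?_⟩
      rw [← RelIso.mul_apply, mul_inv_cancel_left]
  have h1 := hf _ hs
  have h2 : c ≤ sSup A := le_csSup hbd hcA
  have h3 : d < sSup A := by
    by_contra hc
    push Not at hc
    exact h1 ⟨h2, hc⟩
  obtain ⟨y, ⟨g, hg, rfl⟩, hy⟩ := exists_lt_of_lt_csSup ⟨c, hcA⟩ h3
  exact ⟨g, hg, hy⟩

theorem pBA : StBA :=
  ⟨fun P K hP hK hd _ => part1 P K hP hK hd,
    fun G hG c d hcd hf => part2 G hG c d hcd hf⟩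

end Pool.Agent.Helper89.AH
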